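import Pool.Agent.Lib.MP_846a4c_an.Parity

set_option autoImplicit false

namespace Pool.Agent.Lib.MP_846a4c_an

open Function Filter Topology

/-- The configuration attached to a binary sequence. -/
noncomputable def emb (M : ℕ) (e : ℕ → Bool) : ℤ → ZMod 3 :=
  Function.extend ell (fun m => if M ≤ m ∧ e m = true then 1 else 0) 0

theorem emb_ell (M : ℕ) (e : ℕ → Bool) (m : ℕ) :
    emb M e (ell m) = if M ≤ m ∧ e m = true then 1 else 0 :=
  ell_injective.extend_apply _ _ _

theorem emb_not (M : ℕ) (e : ℕ → Bool) {i : ℤ} (h : ¬ ∃ m, ell m = i) : emb M e i = 0 :=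
  Function.extend_apply' _ _ _ h

theorem continuous_emb (M : ℕ) (i : ℤ) : Continuous fun e : ℕ → Bool => emb M e i := by
  by_cases h : ∃ m, ell m = i
  · obtain ⟨m, rfl⟩ := h
    simp only [emb_ell]
    exact (continuous_of_discreteTopology
      (f := fun b : Bool => if M ≤ m ∧ b = true then (1 : ZMod 3) else 0)).comp (continuous_apply m)
  · simp only [emb_not M _ h]
    exact continuous_const

/-- Flip one bit. -/
def flipBit (j : ℕ) (e : ℕ → Bool) : ℕ → Bool := update e j (!e j)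

theorem emb_flip {M j : ℕ} (hj : M ≤ j) (e : ℕ → Bool) :
    emb M (flipBit j e) = flipAt (emb M e) j := by
  funext i
  by_cases h : ∃ m, ell m = i
  · obtain ⟨m, rfl⟩ := h
    by_cases hm : m = j
    · subst hm
      rw [flipAt_self, emb_ell, emb_ell, flipBit, update_self]
      cases e m <;> simp [hj]
    · rw [flipAt_ell_of_ne _ hm, emb_ell, emb_ell, flipBit, update_of_ne hm]
  · rw [flipAt_of_ne _ (fun he => h ⟨j, he.symm⟩), emb_not _ _ h, emb_not _ _ h]

theorem flipBit_flipBit (j : ℕ) (e : ℕ → Bool) : flipBit j (flipBit j e) = e := by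
  simp [flipBit]

theorem continuous_flipBit (j : ℕ) : Continuous (flipBit j) := by
  unfold flipBit
  exact continuous_id.update j
    ((continuous_of_discreteTopology (f := fun b : Bool => !b)).comp (continuous_apply j))

/-- The bit flip as a homeomorphism. -/
def flipHomeo (j : ℕ) : (ℕ → Bool) ≃ₜ (ℕ → Bool) where
  toFun := flipBit j
  invFun := flipBit j
  left_inv := flipBit_flipBit j
  right_inv := flipBit_flipBit j
  continuous_toFun := continuous_flipBit j
  continuous_invFun := continuous_flipBit j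

theorem tendsto_update (e w : ℕ → Bool) :
    Tendsto (fun m => update e m (w m)) atTop (𝓝 e) := by
  rw [tendsto_pi_nhds]
  intro i
  refine tendsto_const_nhds.congr' ?_
  filter_upwards [eventually_gt_atTop i] with m hm
  rw [update_of_ne hm.ne]

theorem residual_avoid {Z : Set ℕ} (hZ : Z.Infinite) (w : ℕ → Bool) :
    ∀ᶠ e in residual (ℕ → Bool), ∀ N, ∃ m, N ≤ m ∧ m ∈ Z ∧ e m ≠ w m := by
  rw [eventually_countable_forall]
  intro N
  apply residual_of_dense_open
  · have : {e : ℕ → Bool | ∃ m, N ≤ m ∧ m ∈ Z ∧ e m ≠ w m} =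
        ⋃ m, (fun e : ℕ → Bool => e m) ⁻¹' {b | N ≤ m ∧ m ∈ Z ∧ b ≠ w m} := by
      ext e; simp
    rw [this]
    exact isOpen_iUnion fun m => (isOpen_discrete _).preimage (continuous_apply m)
  · intro e
    refine mem_closure_of_frequently_of_tendsto ?_ (tendsto_update e fun m => !w m)
    have h1 : ∃ᶠ m in atTop, m ∈ Z := by
      rw [← Nat.cofinite_eq_atTop]
      exact hZ.frequently_cofinite
    refine (h1.and_eventually (eventually_ge_atTop N)).mono fun m hm => ?_
    exact ⟨m, hm.2, hm.1, by simp⟩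

theorem emb_bin (M : ℕ) {e : ℕ → Bool} (he : ∀ N, ∃ m, N ≤ m ∧ e m = true) : Bin (emb M e) := by
  refine ⟨fun i hi => ?_, fun i => ?_, fun N => ?_⟩
  · by_contra h
    exact hi (emb_not M e fun ⟨m, hm⟩ => h ⟨m, hm.symm⟩)
  · by_cases h : ∃ m, ell m = i
    · obtain ⟨m, rfl⟩ := h
      rw [emb_ell]
      split_ifs <;> decide
    · rw [emb_not M e h]; decide
  · obtain ⟨m, hm, hm'⟩ := he (max N M)
    exact ⟨m, le_trans (le_max_left _ _) hm, by
      rw [emb_ell, if_pos ⟨le_trans (le_max_right _ _) hm, hm'⟩]⟩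

theorem residual_good {ι : Type} [Countable ι] (g : ι → G) (ψ : G → G) (M : ℕ) (R : ℤ)
    (hX : ∀ x ∈ setX, ψ x ∈ setX) (hψ : ∀ x ∈ setX, ∃ i, ψ x = g i * x)
    (hR : ∀ i, |(g i).k| ≤ R ∧ ({t | (g i).f t ≠ 0}.Finite →
      ∀ t, (g i).f t ≠ 0 → |t| ≤ R ∧ |t - (g i).k| ≤ R)) :
    ∀ᶠ e in residual (ℕ → Bool), Good ψ R (emb M e) := by
  have h1 : ∀ᶠ e in residual (ℕ → Bool), ∀ p : ι × ℤ,
      {m | (g p.1).f (ell m - p.2) ≠ 0}.Infinite →
      ∀ N, ∃ m, N ≤ m ∧ m ∈ {m | (g p.1).f (ell m - p.2) ≠ 0} ∧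
        e m ≠ decide ((g p.1).f (ell m - p.2) = 2) := by
    rw [eventually_countable_forall]
    intro p
    by_cases h : {m | (g p.1).f (ell m - p.2) ≠ 0}.Infinite
    · exact (residual_avoid h _).mono fun e he _ => he
    · exact Eventually.of_forall fun e h' => absurd h' h
  refine h1.mono fun e he x hx hfin => ?_
  obtain ⟨i, hi⟩ := hψ x hx
  have hy := hX x hx
  rw [hi] at hy ⊢
  by_cases hs : {t | (g i).f t ≠ 0}.Finite
  · refine ⟨?_, fun t ht => ?_⟩
    · rw [mul_k]
      have := (hR i).1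
      rwa [show x.k - ((g i).k + x.k) = - (g i).k by ring, abs_neg]
    · have h0 : (g i).f (t - x.k) ≠ 0 := by
        intro h0
        apply ht
        rw [mul_f, h0, add_zero]
      have := (hR i).2 hs _ h0
      refine ⟨this.1, ?_⟩
      rw [mul_k, show t - ((g i).k + x.k) = t - x.k - (g i).k by ring]
      exact this.2
  · exfalso
    have hZ : {m | (g i).f (ell m - x.k) ≠ 0}.Infinite := by
      intro hZ
      apply hs
      refine (hZ.image fun m => ell m - x.k).subset fun t ht => ?_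
      have hd : x.f (t + x.k) ≠ (g i * x).f (t + x.k) := by
        rw [mul_f, add_sub_cancel_right]
        intro h0
        exact ht (by simpa using h0)
      obtain ⟨m, hm⟩ := diff_lamp hx hy hd
      have : ell m - x.k = t := by rw [← hm]; ring
      exact ⟨m, by simpa [this] using ht, this⟩
    have hbad : (ell ⁻¹' (insert x.k (insert (g i * x).k {i | x.f i ≠ emb M e i}))).Finite :=
      ((hfin.insert _).insert _).preimage ell_injective.injOn
    obtain ⟨B, hB⟩ := hbad.bddAbove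
    obtain ⟨m, hm, hm1, hm2⟩ := he (i, x.k) hZ (max M (B + 1))
    have hnot : m ∉ ell ⁻¹' (insert x.k (insert (g i * x).k {i | x.f i ≠ emb M e i})) := by
      intro h
      have := hB h
      have := le_trans (le_max_right _ _) hm
      omega
    simp only [Set.mem_preimage, Set.mem_insert_iff, Set.mem_ofPred_eq, not_or, not_not] at hnot
    obtain ⟨n1, n2, n3⟩ := hnot
    have a1 : x.f (ell m) ≠ 2 := fun h => n1 (X_two hx h)
    have a2 : (g i * x).f (ell m) ≠ 2 := fun h => n2 (X_two hy h)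
    rw [mul_f] at a2
    rw [emb_ell] at n3
    have hMm : M ≤ m := le_trans (le_max_left _ _) hm
    simp only [hMm, true_and] at n3
    simp only [Set.mem_ofPred_eq] at hm1 hm2
    rw [n3] at a2
    revert hm1 hm2 a2
    generalize (g i).f (ell m - x.k) = v
    cases e m <;> revert v <;> decide

theorem measurable_par (ψ : G → G) (N M : ℕ)
    (hm : MeasurableSet {x | x ∈ setX ∧ 3 * 2 ^ N < |(ψ x).k|}) (v : ZMod 2) :
    MeasurableSet {e : ℕ → Bool | par ψ N (emb M e) = v} := by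
  classical
  set C := {x | x ∈ setX ∧ 3 * 2 ^ N < |(ψ x).k|} with hC
  have h1 : ∀ f, (crossIn ψ N f).ncard =
      ∑ k ∈ Finset.Icc (-(3 * 2 ^ N) : ℤ) (3 * 2 ^ N), if (⟨f, k⟩ : G) ∈ C then 1 else 0 := by
    intro f
    rw [← Finset.card_filter, ← Set.ncard_coe_finset]
    symm
    refine Set.ncard_congr (fun k _ => (⟨f, k⟩ : G)) ?_ ?_ ?_
    · intro k hk
      simp only [Finset.coe_filter, Finset.mem_Icc, Set.mem_ofPred_eq] at hk
      exact ⟨hk.2.1, rfl, abs_le.2 hk.1, hk.2.2⟩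
    · intro a b _ _ h
      exact congrArg G.k h
    · rintro x ⟨hx, rfl, h2, h3⟩
      refine ⟨x.k, ?_, rfl⟩
      simp only [Finset.coe_filter, Finset.mem_Icc, Set.mem_ofPred_eq]
      exact ⟨abs_le.1 h2, hx, h3⟩
  have h2 : Measurable fun e : ℕ → Bool => (crossIn ψ N (emb M e)).ncard := by
    simp only [h1]
    refine Finset.measurable_sum _ fun k _ => Measurable.ite ?_ measurable_const measurable_const
    have hc : Continuous fun e : ℕ → Bool => (⟨emb M e, k⟩ : G) :=
      continuous_mk (continuous_emb M) continuous_const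
    exact hc.measurable hm
  exact h2 (MeasurableSet.of_discrete (s := {n : ℕ | (n : ZMod 2) = v}))

theorem no_flip_colouring (p : (ℕ → Bool) → ZMod 2) (hp : ∀ v, MeasurableSet {e | p e = v})
    (M : ℕ) (h : ∀ᶠ e in residual (ℕ → Bool), ∀ j, M ≤ j → p (flipBit j e) + p e = 1) : False := by
  have hex : ∃ (v : ZMod 2) (V : Set (ℕ → Bool)), IsOpen V ∧ V.Nonempty ∧
      ∀ᶠ e in residual (ℕ → Bool), e ∈ V → p e = v := by
    obtain ⟨U, hU, hUe⟩ := (hp 0).baireMeasurableSet.residualEq_isOpen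
    rcases U.eq_empty_or_nonempty with rfl | hne
    · refine ⟨1, Set.univ, isOpen_univ, Set.univ_nonempty, hUe.mono fun e he _ => ?_⟩
      have : ¬ p e = 0 := fun h0 => by
        have h1 : e ∈ (∅ : Set (ℕ → Bool)) := he.mp h0
        exact h1
      revert this
      generalize p e = a
      revert a; decide
    · exact ⟨0, U, hU, hne, hUe.mono fun e he hV => he.mpr hV⟩
  obtain ⟨v, V, hV, ⟨e0, he0⟩, hres⟩ := hex
  have h1 : ∀ᶠ j in atTop, flipBit j e0 ∈ V :=
    (tendsto_update e0 fun m => !e0 m) (hV.mem_nhds he0)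
  obtain ⟨j, hj1, hj2⟩ := (h1.and (eventually_ge_atTop M)).exists
  have hres2 : ∀ᶠ e in residual (ℕ → Bool), flipBit j e ∈ V → p (flipBit j e) = v := by
    have := (flipHomeo j).residual_map_eq
    rw [← this] at hres
    exact hres
  have hall := (h.and hres).and hres2
  have hd := dense_of_mem_residual hall
  obtain ⟨e, ⟨hV1, hV2⟩, ⟨a1, a2⟩, a3⟩ := hd.inter_open_nonempty (V ∩ flipBit j ⁻¹' V)
    (hV.inter (hV.preimage (continuous_flipBit j))) ⟨e0, he0, hj1⟩
  have := a1 j hj2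
  rw [a2 hV1, a3 hV2] at this
  revert this
  generalize v = a
  revert a; decide

theorem no_matching {ι : Type} [Finite ι] (g : ι → G) (ψ : G → G)
    (hX : ∀ x ∈ setX, ψ x ∈ setX) (hinv : ∀ x ∈ setX, ψ (ψ x) = x) (hne : ∀ x ∈ setX, ψ x ≠ x)
    (hψ : ∀ x ∈ setX, ∃ i, ψ x = g i * x)
    (hm : ∀ c : ℤ, MeasurableSet {x | x ∈ setX ∧ c < |(ψ x).k|}) : False := by
  have h1 : ∀ i, ∃ r : ℤ, |(g i).k| ≤ r ∧ ({t | (g i).f t ≠ 0}.Finite →
      ∀ t, (g i).f t ≠ 0 → |t| ≤ r ∧ |t - (g i).k| ≤ r) := by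
    intro i
    by_cases hs : {t | (g i).f t ≠ 0}.Finite
    · obtain ⟨b, hb⟩ := (hs.image fun t => |t|).bddAbove
      refine ⟨|b| + |(g i).k|, by simp, fun _ t ht => ?_⟩
      have h2 : |t| ≤ b := hb ⟨t, ht, rfl⟩
      have h3 := le_abs_self b
      have h4 := abs_nonneg (g i).k
      have h5 := abs_sub t (g i).k
      constructor <;> omega
    · exact ⟨|(g i).k|, le_rfl, fun h => absurd h hs⟩
  choose r hr using h1
  obtain ⟨R, hR⟩ := (Set.finite_range r).bddAbove
  have hR' : ∀ i, r i ≤ R := fun i => hR ⟨i, rfl⟩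
  obtain ⟨N, hN⟩ := pow_unbounded_of_one_lt R (by norm_num : (1 : ℤ) < 2)
  have hgood := residual_good g ψ (N + 1) R hX hψ fun i =>
    ⟨(hr i).1.trans (hR' i), fun hs t ht =>
      ⟨((hr i).2 hs t ht).1.trans (hR' i), ((hr i).2 hs t ht).2.trans (hR' i)⟩⟩
  have hinf := residual_avoid (Set.infinite_univ (α := ℕ)) fun _ => false
  refine no_flip_colouring (fun e => par ψ N (emb (N + 1) e))
    (measurable_par ψ N (N + 1) (hm _)) (N + 1) ((hgood.and hinf).mono fun e he j hj => ?_)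
  rw [emb_flip hj]
  refine rel_all hN hX hinv hne j hj _ ⟨emb_bin _ fun K => ?_, fun m hm => ?_, he.1⟩
  · obtain ⟨m, h1, -, h2⟩ := he.2 K
    exact ⟨m, h1, by simpa using h2⟩
  · rw [emb_ell, if_neg (by omega)]

theorem not_equidec :
    ¬ ∃ (k : ℕ) (P : Fin k → Set G) (g : Fin k → G),
      (∀ i, MeasurableSet (P i)) ∧
      Pairwise (fun i j => Disjoint (P i) (P j)) ∧
      (⋃ i, P i) = setA ∧
      Pairwise (fun i j =>
        Disjoint ((fun x : G => g i * x) '' P i) ((fun x : G => g j * x) '' P j)) ∧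
      (⋃ i, (fun x : G => g i * x) '' P i) = setB := by
  classical
  rintro ⟨k, P, g, hmeas, hdis, hA, hdis', hB⟩
  have memA : ∀ {i x}, x ∈ P i → x ∈ setA := fun {i x} h => hA ▸ Set.mem_iUnion.2 ⟨i, h⟩
  have memB : ∀ {i x}, x ∈ P i → g i * x ∈ setB := fun {i x} h =>
    hB ▸ Set.mem_iUnion.2 ⟨i, x, h, rfl⟩
  have exA : ∀ x ∈ setA, ∃ i, x ∈ P i := fun x hx => Set.mem_iUnion.1 (hA ▸ hx)
  have exB : ∀ y ∈ setB, ∃ i, (g i)⁻¹ * y ∈ P i := fun y hy => by
    rw [← hB] at hy
    obtain ⟨i, x, hx, rfl⟩ := Set.mem_iUnion.1 hy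
    exact ⟨i, by simpa using hx⟩
  let ψ : G → G := fun x =>
    if h : ∃ i, x ∈ P i then g h.choose * x
    else if h' : ∃ i, (g i)⁻¹ * x ∈ P i then (g h'.choose)⁻¹ * x else x
  have ψA : ∀ {i x}, x ∈ P i → ψ x = g i * x := by
    intro i x hx
    have h : ∃ i, x ∈ P i := ⟨i, hx⟩
    have : h.choose = i := by
      by_contra hne
      exact Set.disjoint_left.1 (hdis hne) h.choose_spec hx
    simp only [ψ, dif_pos h, this]
  have ψB : ∀ {i y}, (g i)⁻¹ * y ∈ P i → ψ y = (g i)⁻¹ * y := by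
    intro i y hy
    have hyB : y ∈ setB := by simpa using memB hy
    have h : ¬ ∃ i, y ∈ P i := fun ⟨j, hj⟩ => disjoint_AB (memA hj) hyB
    have h' : ∃ i, (g i)⁻¹ * y ∈ P i := ⟨i, hy⟩
    have : h'.choose = i := by
      by_contra hne
      have e1 : y ∈ (fun x => g h'.choose * x) '' P h'.choose := ⟨_, h'.choose_spec, by simp⟩
      have e2 : y ∈ (fun x => g i * x) '' P i := ⟨_, hy, by simp⟩
      exact Set.disjoint_left.1 (hdis' hne) e1 e2
    simp only [ψ, dif_neg h, dif_pos h', this]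
  refine no_matching (ι := Fin k ⊕ Fin k) (Sum.elim g fun i => (g i)⁻¹) ψ ?_ ?_ ?_ ?_ ?_
  · intro x hx
    rcases mem_X_iff.1 hx with h | h
    · obtain ⟨i, hi⟩ := exA x h
      rw [ψA hi]; exact mem_X_iff.2 (Or.inr (memB hi))
    · obtain ⟨i, hi⟩ := exB x h
      rw [ψB hi]; exact mem_X_iff.2 (Or.inl (memA hi))
  · intro x hx
    rcases mem_X_iff.1 hx with h | h
    · obtain ⟨i, hi⟩ := exA x h
      rw [ψA hi, ψB (i := i) (by simpa using hi)]; simp
    · obtain ⟨i, hi⟩ := exB x h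
      rw [ψB hi, ψA hi]; simp
  · intro x hx he
    rcases mem_X_iff.1 hx with h | h
    · obtain ⟨i, hi⟩ := exA x h
      have := memB hi
      rw [← ψA hi, he] at this
      exact disjoint_AB h this
    · obtain ⟨i, hi⟩ := exB x h
      have := memA hi
      rw [← ψB hi, he] at this
      exact disjoint_AB this h
  · intro x hx
    rcases mem_X_iff.1 hx with h | h
    · obtain ⟨i, hi⟩ := exA x h
      exact ⟨Sum.inl i, ψA hi⟩
    · obtain ⟨i, hi⟩ := exB x h
      exact ⟨Sum.inr i, ψB hi⟩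
  · intro c
    have : {x | x ∈ setX ∧ c < |(ψ x).k|} =
        (⋃ i, P i ∩ {x | c < |(g i).k + x.k|}) ∪
        (⋃ i, (fun x => (g i)⁻¹ * x) ⁻¹' P i ∩ {x | c < |((g i)⁻¹).k + x.k|}) := by
      ext x
      simp only [Set.mem_union, Set.mem_iUnion, Set.mem_inter_iff, Set.mem_ofPred_eq,
        Set.mem_preimage]
      constructor
      · rintro ⟨hx, hc⟩
        rcases mem_X_iff.1 hx with h | h
        · obtain ⟨i, hi⟩ := exA x h
          rw [ψA hi] at hc
          exact Or.inl ⟨i, hi, hc⟩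
        · obtain ⟨i, hi⟩ := exB x h
          rw [ψB hi] at hc
          exact Or.inr ⟨i, hi, hc⟩
      · rintro (⟨i, hi, hc⟩ | ⟨i, hi, hc⟩)
        · exact ⟨mem_X_iff.2 (Or.inl (memA hi)), by rw [ψA hi]; exact hc⟩
        · exact ⟨mem_X_iff.2 (Or.inr (by simpa using memB hi)), by rw [ψB hi]; exact hc⟩
    rw [this]
    refine MeasurableSet.union (MeasurableSet.iUnion fun i => (hmeas i).inter ?_)
      (MeasurableSet.iUnion fun i => MeasurableSet.inter ?_ ?_)
    · exact measurableSet_setOfPred.2 (measurable_k fun t => c < |(g i).k + t|)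
    · exact (continuous_const.mul continuous_id).measurable (hmeas i)
    · exact measurableSet_setOfPred.2 (measurable_k fun t => c < |((g i)⁻¹).k + t|)

end Pool.Agent.Lib.MP_846a4c_an
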