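import Pool.Agent.Lib.MP_846a4c_an.Sets

set_option autoImplicit false

namespace Pool.Agent.Lib.MP_846a4c_an

open Function

theorem equidec_of_bijOn {ι : Type} [Fintype ι] (E F : Set (G × ℕ)) (lab : G × ℕ → ι)
    (g : ι → G) (σ : ι → Equiv.Perm ℕ)
    (hm : ∀ i, MeasurableSet {p | p ∈ E ∧ lab p = i})
    (hb : Set.BijOn (fun p : G × ℕ => (g (lab p) * p.1, σ (lab p) p.2)) E F) :
    ∃ (k : ℕ) (P : Fin k → Set (G × ℕ)) (g : Fin k → G) (σ : Fin k → Equiv.Perm ℕ),
      (∀ i, MeasurableSet (P i)) ∧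
      Pairwise (fun i j => Disjoint (P i) (P j)) ∧
      (⋃ i, P i) = E ∧
      Pairwise (fun i j =>
        Disjoint ((fun p : G × ℕ => (g i * p.1, σ i p.2)) '' P i)
                 ((fun p : G × ℕ => (g j * p.1, σ j p.2)) '' P j)) ∧
      (⋃ i, (fun p : G × ℕ => (g i * p.1, σ i p.2)) '' P i) = F := by
  let e := (Fintype.equivFin ι).symm
  refine ⟨Fintype.card ι, fun i => {p | p ∈ E ∧ lab p = e i}, fun i => g (e i), fun i => σ (e i),
    fun i => hm _, ?_, ?_, ?_, ?_⟩
  · intro i j hij
    rw [Set.disjoint_left]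
    rintro p ⟨-, h1⟩ ⟨-, h2⟩
    exact hij (e.injective (h1.symm.trans h2))
  · ext p
    simp only [Set.mem_iUnion, Set.mem_ofPred_eq]
    constructor
    · rintro ⟨i, h, -⟩; exact h
    · intro h; exact ⟨e.symm (lab p), h, by simp⟩
  · intro i j hij
    rw [Set.disjoint_left]
    rintro z ⟨p, ⟨hp, h1⟩, hz1⟩ ⟨q, ⟨hq, h2⟩, hz2⟩
    have : p = q := by
      apply hb.injOn hp hq
      simp only [h1, h2]
      exact hz1.trans hz2.symm
    subst this
    exact hij (e.injective (h1.symm.trans h2))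
  · ext z
    simp only [Set.mem_iUnion, Set.mem_image, Set.mem_ofPred_eq]
    constructor
    · rintro ⟨i, p, ⟨hp, h1⟩, rfl⟩
      have := hb.mapsTo hp
      simpa only [h1] using this
    · intro hz
      obtain ⟨p, hp, rfl⟩ := hb.surjOn hz
      exact ⟨e.symm (lab p), p, ⟨hp, by simp⟩, by simp⟩

open Classical in
/-- Direction attached to a level. -/
noncomputable def dir (l : Prop) : ℤ := if l then -1 else 1

theorem dir_cases (l : Prop) : dir l = -1 ∨ dir l = 1 := by
  unfold dir; split_ifs <;> simp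

/-- Labels of the pieces. -/
noncomputable def lab (p : G × ℕ) : Prop × Prop × ZMod 3 :=
  (p.2 = 0, Plain (mv p.1 (dir (p.2 = 0))), p.1.f p.1.k)

open Classical in
noncomputable def gl (i : Prop × Prop × ZMod 3) : G :=
  if i.2.1 then cur (dir i.1) else lamp (2 - i.2.2)

open Classical in
noncomputable def sl (i : Prop × Prop × ZMod 3) : Equiv.Perm ℕ :=
  if i.2.1 then 1 else Equiv.swap (if i.1 then 0 else 1) i.2.2.val

theorem measurable_lab : Measurable lab := by
  classical
  have h0 : Measurable fun p : G × ℕ => p.2 = 0 :=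
    (measurable_of_countable (fun n : ℕ => n = 0)).comp measurable_snd
  refine h0.prodMk (Measurable.prodMk ?_ ?_)
  · have : (fun p : G × ℕ => Plain (mv p.1 (dir (p.2 = 0)))) =
        fun p : G × ℕ => (p.2 = 0 ∧ Plain (mv p.1 (-1))) ∨ (¬ p.2 = 0 ∧ Plain (mv p.1 1)) := by
      funext p
      by_cases h : p.2 = 0 <;> simp [dir, h]
    rw [this]
    refine Measurable.or (h0.and ?_) (h0.not.and ?_)
    · exact (measurable_plain.comp (continuous_mv (-1)).measurable).comp measurable_fst
    · exact (measurable_plain.comp (continuous_mv 1).measurable).comp measurable_fst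
  · refine Measurable.comp (g := fun x : G => x.f x.k) ?_ measurable_fst
    apply measurable_to_countable'
    intro v
    exact measurableSet_setOfPred.2 (measurable_prop_of_continuous continuous_val (fun w => w = v))

open Classical in
/-- The matching between the two copies of `A` and the two copies of `B`. -/
noncomputable def Phi (p : G × ℕ) : G × ℕ :=
  if Plain (mv p.1 (dir (p.2 = 0))) then (mv p.1 (dir (p.2 = 0)), p.2)
  else (setv p.1 2, (p.1.f p.1.k).val)

open Classical in
noncomputable def Psi (p : G × ℕ) : G × ℕ :=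
  if Plain p.1 then (mv p.1 (- dir (p.2 = 0)), p.2)
  else (setv p.1 p.2, if Plain (mv (setv p.1 p.2) (-1)) then 1 else 0)

theorem Phi_eq (p : G × ℕ) (hp : p.2 < 2) :
    (gl (lab p) * p.1, sl (lab p) p.2) = Phi p := by
  obtain ⟨x, l⟩ := p
  unfold Phi gl sl lab
  by_cases h : Plain (mv x (dir (l = 0)))
  · simp only [h, if_true, cur_mul, Equiv.Perm.coe_one, id]
  · simp only [h, if_false, lamp_mul]
    congr 1
    have hl : l = 0 ∨ l = 1 := by simp at hp; omega
    rcases hl with rfl | rfl <;> simp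

theorem val_lt_two {v : ZMod 3} (h : v ≠ 2) : v.val < 2 := by
  revert v; decide

theorem cast_ne_two {l : ℕ} (h : l < 2) : (l : ZMod 3) ≠ 2 := by
  have hl : l = 0 ∨ l = 1 := by omega
  rcases hl with rfl | rfl <;> decide

theorem val_cast {l : ℕ} (h : l < 2) : (l : ZMod 3).val = l := by
  have hl : l = 0 ∨ l = 1 := by omega
  rcases hl with rfl | rfl <;> decide

theorem Phi_mapsTo : Set.MapsTo Phi (setA ×ˢ Set.Iio 2) (setB ×ˢ Set.Iio 2) := by
  rintro ⟨x, l⟩ ⟨⟨hp, he⟩, hl⟩
  unfold Phi
  split_ifs with h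
  · refine ⟨Or.inl ⟨h, ?_⟩, hl⟩
    simp only [mv_k]
    rcases dir_cases (l = 0) with hd | hd <;> rw [hd]
    · exact Even.add_odd he (by decide)
    · exact Even.add_odd he (by decide)
  · exact ⟨Or.inr (hp.isEnd (dir_cases _) h).mark, val_lt_two (hp.1.2.1 _)⟩

theorem Psi_mapsTo : Set.MapsTo Psi (setB ×ˢ Set.Iio 2) (setA ×ˢ Set.Iio 2) := by
  rintro ⟨x, l⟩ ⟨hB, hl⟩
  unfold Psi
  by_cases h : Plain x
  · rw [if_pos h]
    rcases hB with ⟨-, ho⟩ | hm
    · refine ⟨⟨h.mv_of_odd ho ?_, ?_⟩, hl⟩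
      · rcases dir_cases (l = 0) with hd | hd <;> simp [hd]
      · simp only [mv_k]
        rcases dir_cases (l = 0) with hd | hd <;> rw [hd]
        · exact Odd.add_odd ho (by decide)
        · exact Odd.add_odd ho (by decide)
    · exact absurd hm h.not_mark
  · rw [if_neg h]
    rcases hB with ⟨hp, -⟩ | hm
    · exact absurd hp h
    · have he := hm.isEnd (cast_ne_two hl)
      refine ⟨⟨he.plain, he.even⟩, ?_⟩
      simp only [Set.mem_Iio]
      split_ifs <;> omega

theorem Psi_Phi : Set.LeftInvOn Psi Phi (setA ×ˢ Set.Iio 2) := by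
  rintro ⟨x, l⟩ ⟨⟨hp, he⟩, hl⟩
  unfold Phi
  split_ifs with h
  · unfold Psi
    simp only at h ⊢
    rw [if_pos h, mv_mv _ _ _ (by ring)]
  · have hend := hp.isEnd (dir_cases _) h
    have hm := hend.mark
    unfold Psi
    simp only at h ⊢
    rw [if_neg (fun hp' => Plain.not_mark hp' hm), setv_setv, ZMod.natCast_zmod_val, setv_self]
    congr 1
    have hl' : l = 0 ∨ l = 1 := by simp at hl; omega
    rcases hl' with rfl | rfl
    · simp only [dir, if_true] at h
      rw [if_neg h]
    · have : dir (1 = 0) = 1 := by simp [dir]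
      rw [this] at h
      rw [if_pos (hend.xor.2 h)]

theorem Phi_Psi : Set.RightInvOn Psi Phi (setB ×ˢ Set.Iio 2) := by
  classical
  rintro ⟨x, l⟩ ⟨hB, hl⟩
  unfold Psi
  by_cases h : Plain x
  · simp only
    rw [if_pos h]
    unfold Phi
    simp only
    rw [mv_mv _ _ _ (by ring), if_pos h]
  · simp only
    rw [if_neg h]
    rcases hB with ⟨hp, -⟩ | hm
    · exact absurd hp h
    · have he := hm.isEnd (cast_ne_two hl)
      unfold Phi
      simp only
      have hn : ¬ Plain (mv (setv x l) (dir ((if Plain (mv (setv x l) (-1)) then 1 else 0) = 0))) := by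
        split_ifs with h2
        · have : dir False = 1 := by simp [dir]
          rw [this]
          exact he.xor.1 h2
        · simpa [dir] using h2
      rw [if_neg hn, setv_setv]
      have h2 : setv x 2 = x := by
        conv_rhs => rw [← setv_self x, hm.1]
      rw [h2]
      simp only [setv_f, setv_k, update_self]
      rw [val_cast hl]

theorem double_equidec :
    ∃ (k : ℕ) (P : Fin k → Set (G × ℕ)) (g : Fin k → G) (σ : Fin k → Equiv.Perm ℕ),
      (∀ i, MeasurableSet (P i)) ∧
      Pairwise (fun i j => Disjoint (P i) (P j)) ∧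
      (⋃ i, P i) = setA ×ˢ Set.Iio 2 ∧
      Pairwise (fun i j =>
        Disjoint ((fun p : G × ℕ => (g i * p.1, σ i p.2)) '' P i)
                 ((fun p : G × ℕ => (g j * p.1, σ j p.2)) '' P j)) ∧
      (⋃ i, (fun p : G × ℕ => (g i * p.1, σ i p.2)) '' P i) = setB ×ˢ Set.Iio 2 := by
  classical
  refine equidec_of_bijOn _ _ lab gl sl (fun i => ?_) ?_
  · exact (measurableSet_A.prod measurableSet_Iio).inter (measurable_lab (measurableSet_singleton i))
  · have hb : Set.BijOn Phi (setA ×ˢ Set.Iio 2) (setB ×ˢ Set.Iio 2) :=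
      Set.InvOn.bijOn ⟨Psi_Phi, Phi_Psi⟩ Phi_mapsTo Psi_mapsTo
    exact hb.congr fun p hp => (Phi_eq p hp.2).symm

end Pool.Agent.Lib.MP_846a4c_an
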