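import Mathlib

set_option autoImplicit false

namespace Pool.Agent.Lib.MP_846a4c_an

/-- A locally compact completion of the lamplighter group with lamps of order three:
a lamp configuration together with a cursor position. -/
@[ext] structure G where
  f : ℤ → ZMod 3
  k : ℤ

instance : Mul G := ⟨fun g x => ⟨fun i => x.f i + g.f (i - x.k), g.k + x.k⟩⟩
instance : One G := ⟨⟨fun _ => 0, 0⟩⟩
instance : Inv G := ⟨fun x => ⟨fun i => - x.f (i + x.k), - x.k⟩⟩

@[simp] theorem mul_f (g x : G) (i : ℤ) : (g * x).f i = x.f i + g.f (i - x.k) := rfl
@[simp] theorem mul_k (g x : G) : (g * x).k = g.k + x.k := rfl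
@[simp] theorem one_f (i : ℤ) : (1 : G).f i = 0 := rfl
@[simp] theorem one_k : (1 : G).k = 0 := rfl
@[simp] theorem inv_f (x : G) (i : ℤ) : (x⁻¹).f i = - x.f (i + x.k) := rfl
@[simp] theorem inv_k (x : G) : (x⁻¹).k = - x.k := rfl

instance : Group G :=
  Group.ofLeftAxioms
    (fun a b c => by
      ext i
      · simp only [mul_f, mul_k]
        rw [add_assoc]
        congr 3
        ring
      · simp only [mul_k]; ring)
    (fun a => by
      ext i
      · simp
      · simp)
    (fun a => by
      ext i
      · simp
      · simp)

/-- The underlying product. -/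
def toProd : G ≃ (ℤ → ZMod 3) × ℤ where
  toFun x := (x.f, x.k)
  invFun p := ⟨p.1, p.2⟩
  left_inv _ := rfl
  right_inv _ := rfl

instance : TopologicalSpace G := TopologicalSpace.induced toProd inferInstance

/-- The topology is the product topology. -/
def homeo : G ≃ₜ (ℤ → ZMod 3) × ℤ := toProd.toHomeomorphOfIsInducing ⟨rfl⟩

instance : T2Space G := homeo.isEmbedding.t2Space
instance : LocallyCompactSpace G := homeo.isClosedEmbedding.locallyCompactSpace

theorem continuous_f : Continuous (fun x : G => x.f) := continuous_fst.comp homeo.continuous
theorem continuous_k : Continuous (fun x : G => x.k) := continuous_snd.comp homeo.continuous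

theorem continuous_mk {X : Type*} [TopologicalSpace X] {u : X → G}
    (h1 : ∀ i, Continuous fun x => (u x).f i) (h2 : Continuous fun x => (u x).k) :
    Continuous u := by
  apply continuous_induced_rng.2
  exact (continuous_pi h1).prodMk h2

theorem continuous_eval : Continuous (fun p : (ℤ → ZMod 3) × ℤ => p.1 p.2) := by
  rw [continuous_prod_of_discrete_right]
  intro b
  exact continuous_apply b

theorem continuous_f_at {X : Type*} [TopologicalSpace X] {u : X → G} {v : X → ℤ}
    (h1 : Continuous u) (h2 : Continuous v) : Continuous fun x => (u x).f (v x) :=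
  continuous_eval.comp ((continuous_f.comp h1).prodMk h2)

instance : ContinuousMul G := ⟨by
  apply continuous_mk
  · intro i
    simp only [mul_f]
    exact (continuous_f_at continuous_snd continuous_const).add
      (continuous_f_at continuous_fst (continuous_const.sub (continuous_k.comp continuous_snd)))
  · simp only [mul_k]
    exact (continuous_k.comp continuous_fst).add (continuous_k.comp continuous_snd)⟩

instance : ContinuousInv G := ⟨by
  apply continuous_mk
  · intro i
    simp only [inv_f]
    exact (continuous_f_at continuous_id (continuous_const.add continuous_k)).neg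
  · simp only [inv_k]
    exact continuous_k.neg⟩

instance : IsTopologicalGroup G where

instance : MeasurableSpace G := borel G
instance : BorelSpace G := ⟨rfl⟩

end Pool.Agent.Lib.MP_846a4c_an
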