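import Pool.Agent.Lib.MP_846a4c_an.Struct

set_option autoImplicit false

namespace Pool.Agent.Lib.MP_846a4c_an

open Function

/-- Flip lamp `j` between the values `0` and `1`. -/
def flipAt (f : ℤ → ZMod 3) (j : ℕ) : ℤ → ZMod 3 := update f (ell j) (1 - f (ell j))

theorem flipAt_of_ne (f : ℤ → ZMod 3) {j : ℕ} {i : ℤ} (h : i ≠ ell j) : flipAt f j i = f i :=
  update_of_ne h _ _

theorem flipAt_self (f : ℤ → ZMod 3) (j : ℕ) : flipAt f j (ell j) = 1 - f (ell j) :=
  update_self _ _ _

theorem flipAt_ell_of_ne (f : ℤ → ZMod 3) {j m : ℕ} (h : m ≠ j) :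
    flipAt f j (ell m) = f (ell m) :=
  flipAt_of_ne f fun he => h (ell_injective he)

theorem flipAt_flipAt (f : ℤ → ZMod 3) (j : ℕ) : flipAt (flipAt f j) j = f := by
  funext i
  by_cases h : i = ell j
  · rw [h, flipAt_self, flipAt_self]; ring
  · rw [flipAt_of_ne _ h, flipAt_of_ne _ h]

theorem flipAt_comm (f : ℤ → ZMod 3) (a b : ℕ) :
    flipAt (flipAt f a) b = flipAt (flipAt f b) a := by
  by_cases hab : a = b
  · rw [hab]
  funext i
  by_cases h : i = ell a
  · rw [h, flipAt_self, flipAt_ell_of_ne _ hab, flipAt_ell_of_ne _ hab, flipAt_self]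
  · by_cases h' : i = ell b
    · rw [h', flipAt_self, flipAt_ell_of_ne _ (Ne.symm hab), flipAt_ell_of_ne _ (Ne.symm hab),
        flipAt_self]
    · rw [flipAt_of_ne _ h, flipAt_of_ne _ h', flipAt_of_ne _ h, flipAt_of_ne _ h']

theorem flipAt_eq_iff (f : ℤ → ZMod 3) (j : ℕ) : flipAt f j = f ↔ f (ell j) = 2 := by
  constructor
  · intro h
    have := congrFun h (ell j)
    rw [flipAt_self] at this
    revert this
    generalize f (ell j) = v
    revert v; decide
  · intro h
    funext i
    by_cases hi : i = ell j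
    · rw [hi, flipAt_self, h]; decide
    · exact flipAt_of_ne _ hi

theorem Bin.flipAt {f : ℤ → ZMod 3} (h : Bin f) (j : ℕ) : Bin (flipAt f j) := by
  refine h.update j ?_
  have := h.2.1 (ell j)
  revert this
  generalize f (ell j) = v
  revert v; decide

theorem First.flipAt {f : ℤ → ZMod 3} {n j : ℕ} (h : First f n) (hj : n < j) :
    First (flipAt f j) n := h.update_of_lt hj _

theorem eq_or_flip {f f' : ℤ → ZMod 3} (h : Bin f) (h' : Bin f') (j : ℕ)
    (hh : ∀ i, i ≠ ell j → f' i = f i) : f' = f ∨ f' = flipAt f j := by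
  by_cases he : f' (ell j) = f (ell j)
  · left
    funext i
    by_cases hi : i = ell j
    · rw [hi, he]
    · exact hh i hi
  · right
    funext i
    by_cases hi : i = ell j
    · rw [hi, flipAt_self]
      have h1 := h.2.1 (ell j)
      have h2 := h'.2.1 (ell j)
      revert he h1 h2
      generalize f (ell j) = v
      generalize f' (ell j) = w
      revert v w; decide
    · rw [flipAt_of_ne _ hi]; exact hh i hi

theorem le_first {f : ℤ → ZMod 3} {n M : ℕ} (h : First f n) (hz : ∀ m < M, f (ell m) = 0) :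
    M ≤ n := by
  by_contra hlt
  have := hz n (not_le.1 hlt)
  rw [h.1] at this
  exact absurd this (by decide)

theorem flip_X {N : ℕ} {x : G} (hx : x ∈ setX) (hk : |x.k| ≤ 3 * 2 ^ N) :
    (⟨flipAt x.f (N + 1), x.k⟩ : G) ∈ setX ∨ (⟨flipAt x.f (N + 1), -x.k⟩ : G) ∈ setX := by
  have hpos : (0 : ℤ) < 2 ^ N := by positivity
  rcases hx with ⟨hb, n, hn, hkn⟩ | hm
  · by_cases hlt : n < N + 1
    · exact Or.inl (Or.inl ⟨hb.flipAt _, n, hn.flipAt hlt, hkn⟩)
    · obtain ⟨n', hn'⟩ := (hb.flipAt (N + 1)).exists_first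
      have hge : N + 1 ≤ n' := le_first hn' fun m hm => by
        rw [flipAt_ell_of_ne _ (by omega)]
        exact hn.2 m (by omega)
      have h4 : 4 * 2 ^ N ≤ |ell (n' + 1)| := by
        rcases lamp_gap N (n' + 1) with ⟨h, -⟩ | ⟨-, h⟩
        · omega
        · exact h
      by_cases hin : x.k ∈ Set.uIcc 0 (ell (n' + 1))
      · exact Or.inl (Or.inl ⟨hb.flipAt _, n', hn', hin⟩)
      · refine Or.inr (Or.inl ⟨hb.flipAt _, n', hn', ?_⟩)
        simp only [Set.mem_uIcc] at hin ⊢
        have := abs_le.1 hk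
        rcases abs_cases (ell (n' + 1)) with h6 | h6 <;> omega
  · left
    by_cases he : x.k = ell (N + 1)
    · have : flipAt x.f (N + 1) = x.f := (flipAt_eq_iff _ _).2 (by rw [← he]; exact hm.1)
      rw [this]
      exact Or.inr hm
    · right
      have hc : (setv (⟨flipAt x.f (N + 1), x.k⟩ : G) 0).f = flipAt (setv x 0).f (N + 1) := by
        funext i
        simp only [setv_f]
        by_cases hi : i = x.k
        · rw [hi, update_self, flipAt_of_ne _ he, update_self]
        · rw [update_of_ne hi]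
          by_cases hi' : i = ell (N + 1)
          · rw [hi', flipAt_self, flipAt_self, update_of_ne (Ne.symm he)]
          · rw [flipAt_of_ne _ hi', flipAt_of_ne _ hi', update_of_ne hi]
      refine ⟨by simp only; rw [flipAt_of_ne _ he]; exact hm.1, ?_, ?_⟩
      · rw [hc]; exact hm.2.1.flipAt _
      · rcases hm.2.2 with h0 | ⟨n, hn, hkn⟩
        · exact Or.inl h0
        · refine Or.inr ⟨n, ?_, hkn⟩
          rw [hc]
          refine hn.flipAt ?_
          have hkn' : x.k = ell (n + 1) := hkn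
          rw [hkn'] at hk
          rcases lamp_gap N (n + 1) with ⟨h, -⟩ | ⟨-, h⟩ <;> omega

theorem mark_top {f : ℤ → ZMod 3} (hb : Bin f) {n : ℕ} (hn : First f n) :
    (⟨update f (ell (n + 1)) 2, ell (n + 1)⟩ : G) ∈ setX :=
  Or.inr (IsEnd.mark (x := ⟨f, ell (n + 1)⟩) ⟨hb, Or.inr ⟨n, hn, rfl⟩⟩)

section

variable (ψ : G → G) (N : ℕ) (R : ℤ)

/-- All moves of the matching near the configuration `f` are short. -/
def Good (f : ℤ → ZMod 3) : Prop :=
  ∀ x ∈ setX, {i | x.f i ≠ f i}.Finite → Close R x (ψ x)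

def Base (f : ℤ → ZMod 3) : Prop :=
  Bin f ∧ (∀ m < N + 1, f (ell m) = 0) ∧ Good ψ R f

def crossIn (f : ℤ → ZMod 3) : Set G :=
  {x | x ∈ setX ∧ x.f = f ∧ |x.k| ≤ 3 * 2 ^ N ∧ 3 * 2 ^ N < |(ψ x).k|}

def crossOut (f : ℤ → ZMod 3) : Set G :=
  {x | x ∈ setX ∧ x.f = f ∧ 3 * 2 ^ N < |x.k| ∧ |(ψ x).k| ≤ 3 * 2 ^ N}

noncomputable def par (f : ℤ → ZMod 3) : ZMod 2 := ((crossIn ψ N f).ncard : ZMod 2)

variable {ψ N R}

theorem Base.flipAt {f : ℤ → ZMod 3} (h : Base ψ N R f) {j : ℕ} (hj : N + 1 ≤ j) :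
    Base ψ N R (flipAt f j) := by
  refine ⟨h.1.flipAt j, fun m hm => ?_, fun x hx hf => h.2.2 x hx ?_⟩
  · rw [flipAt_ell_of_ne _ (by omega)]; exact h.2.1 m hm
  · refine (hf.insert (ell j)).subset fun i hi => ?_
    by_cases hij : i = ell j
    · exact Or.inl hij
    · right
      simp only [Set.mem_ofPred_eq] at hi ⊢
      rwa [flipAt_of_ne _ hij]

theorem crossIn_finite (f : ℤ → ZMod 3) : (crossIn ψ N f).Finite :=
  (finite_box f (3 * 2 ^ N)).subset fun _ hx => ⟨hx.2.2.1, fun i _ => by rw [hx.2.1]⟩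

theorem crossOut_eq (hR : R < 2 ^ N) (hX : ∀ x ∈ setX, ψ x ∈ setX)
    (hinv : ∀ x ∈ setX, ψ (ψ x) = x) {f : ℤ → ZMod 3} (h : Base ψ N R f) :
    crossOut ψ N f = ψ '' crossIn ψ N f := by
  ext y
  constructor
  · rintro ⟨hy, hf, h1, h2⟩
    have hc : Close R y (ψ y) := h.2.2 y hy (by simp [hf])
    have := cross hR (hX y hy) hy hc.symm h2 h1
    exact ⟨ψ y, ⟨hX y hy, this.1.trans hf, h2, by rw [hinv y hy]; exact h1⟩, hinv y hy⟩
  · rintro ⟨x, ⟨hx, hf, h1, h2⟩, rfl⟩
    have hc : Close R x (ψ x) := h.2.2 x hx (by simp [hf])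
    have := cross hR hx (hX x hx) hc h1 h2
    exact ⟨hX x hx, this.1.symm.trans hf, h2, by rw [hinv x hx]; exact h1⟩

theorem crossOut_ncard (hR : R < 2 ^ N) (hX : ∀ x ∈ setX, ψ x ∈ setX)
    (hinv : ∀ x ∈ setX, ψ (ψ x) = x) {f : ℤ → ZMod 3} (h : Base ψ N R f) :
    (crossOut ψ N f).ncard = (crossIn ψ N f).ncard := by
  rw [crossOut_eq hR hX hinv h]
  refine Set.InjOn.ncard_image fun x hx y hy hxy => ?_
  rw [← hinv x hx.1, hxy, hinv y hy.1]

theorem rel_inner (hR : R < 2 ^ N) (hX : ∀ x ∈ setX, ψ x ∈ setX)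
    (hinv : ∀ x ∈ setX, ψ (ψ x) = x) (hne : ∀ x ∈ setX, ψ x ≠ x)
    {f : ℤ → ZMod 3} (h : Base ψ N R f) :
    par ψ N (flipAt f (N + 1)) + par ψ N f = 1 := by
  classical
  have hpos : (0 : ℤ) < 2 ^ N := by positivity
  let S : Set G := {x | x ∈ setX ∧ |x.k| ≤ 3 * 2 ^ N ∧ ∀ i, 3 * 2 ^ N < |i| → x.f i = f i}
  have hS : S.Finite := (finite_box f (3 * 2 ^ N)).subset fun x hx => hx.2
  have hM : |ell (N + 1)| ≤ 2 * 2 ^ N := by
    rcases lamp_gap N (N + 1) with ⟨-, h⟩ | ⟨h, -⟩
    · exact h
    · omega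
  have hN : |ell N| ≤ 2 * 2 ^ N := by
    rcases lamp_gap N N with ⟨-, h⟩ | ⟨h, -⟩
    · exact h
    · omega
  have hM2 := two_le_abs_ell_succ N
  let τ : G → G := fun x =>
    if (⟨flipAt x.f (N + 1), x.k⟩ : G) ∈ setX then ⟨flipAt x.f (N + 1), x.k⟩
    else ⟨flipAt x.f (N + 1), -x.k⟩
  let f1 : ℤ → ZMod 3 := update f (ell N) 1
  have hf1 : First f1 N := ⟨update_self _ _ _, fun m hm => by
    have : ell m ≠ ell N := fun he => by have := ell_injective he; omega
    simp only [f1]
    rw [update_of_ne this]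
    exact h.2.1 m (by omega)⟩
  let x0 : G := ⟨update f1 (ell (N + 1)) 2, ell (N + 1)⟩
  have hx0X : x0 ∈ setX := mark_top (h.1.update N (by decide)) hf1
  have hx0 : x0 ∈ S := by
    refine ⟨hx0X, by simp only [x0]; omega, fun i hi => ?_⟩
    simp only [x0, f1]
    rw [update_of_ne (by rintro rfl; omega), update_of_ne (by rintro rfl; omega)]
  have hflip : ∀ x ∈ S, ∀ i, 3 * 2 ^ N < |i| → flipAt x.f (N + 1) i = f i := by
    intro x hx i hi
    rw [flipAt_of_ne _ (by rintro rfl; omega)]
    exact hx.2.2 i hi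
  have hb := odd_boundary S hS τ ψ x0 hx0 ?_ ?_ ?_ (fun x hx => hinv x hx.1)
    (fun x hx => hne x hx.1)
  · have hE : {x | x ∈ S ∧ ψ x ∉ S} = crossIn ψ N (flipAt f (N + 1)) ∪ crossIn ψ N f := by
      ext x
      constructor
      · rintro ⟨⟨hx, hk, hf⟩, hy⟩
        have hc : Close R x (ψ x) := by
          refine h.2.2 x hx ((Set.finite_Icc (-(3 * 2 ^ N)) (3 * 2 ^ N)).subset fun i hi => ?_)
          by_contra hi'
          exact hi (hf i (not_le.1 fun h => hi' (abs_le.1 h)))
        have hbig : 3 * 2 ^ N < |(ψ x).k| := by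
          by_contra hle
          refine hy ⟨hX x hx, not_lt.1 hle, fun i hi => ?_⟩
          rw [← hf i hi]
          by_contra hd
          obtain ⟨m, rfl⟩ := diff_lamp hx (hX x hx) (Ne.symm hd)
          have h3 := abs_le.1 (hc.2 _ (Ne.symm hd)).1
          have h4 := abs_le.1 hk
          rcases lamp_gap N m with ⟨-, h5⟩ | ⟨-, h5⟩ <;>
            rcases abs_cases (ell m) with h6 | h6 <;> omega
        obtain ⟨-, ⟨hbx, n, hn, hkn⟩, -, h2⟩ := cross hR hx (hX x hx) hc hk hbig
        have hnN : N + 1 ≤ n := by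
          rw [Set.mem_uIcc] at hkn
          rcases lamp_gap N (n + 1) with ⟨-, h5⟩ | ⟨h5, -⟩
          · rcases abs_cases (ell (n + 1)) with h6 | h6 <;>
              rcases abs_cases x.k with h7 | h7 <;> omega
          · omega
        have := eq_or_flip h.1 hbx (N + 1) fun i hi => by
          by_cases hi' : 3 * 2 ^ N < |i|
          · exact hf i hi'
          · by_contra hd
            have hl : ∃ m, i = ell m := by
              by_cases h0 : x.f i = 0
              · exact h.1.1 i (by rw [← h0]; exact Ne.symm hd)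
              · exact hbx.1 i h0
            obtain ⟨m, rfl⟩ := hl
            have hm : m < N + 1 := by
              have : m ≠ N + 1 := fun he => hi (by rw [he])
              rcases lamp_gap N m with ⟨h5, -⟩ | ⟨-, h5⟩ <;> omega
            exact hd (by rw [hn.2 m (by omega), h.2.1 m hm])
        rcases this with h1 | h1
        · exact Or.inr ⟨hx, h1, hk, hbig⟩
        · exact Or.inl ⟨hx, h1, hk, hbig⟩
      · rintro (⟨hx, hf, hk, hbig⟩ | ⟨hx, hf, hk, hbig⟩)
        · refine ⟨⟨hx, hk, fun i hi => ?_⟩, fun hy => absurd hy.2.1 (not_le.2 hbig)⟩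
          rw [hf, flipAt_of_ne _ (by rintro rfl; omega)]
        · exact ⟨⟨hx, hk, fun i _ => by rw [hf]⟩, fun hy => absurd hy.2.1 (not_le.2 hbig)⟩
    rw [hE, Set.ncard_union_eq _ (crossIn_finite _) (crossIn_finite _)] at hb
    · simpa [par] using hb
    · rw [Set.disjoint_left]
      rintro x ⟨-, h1, -⟩ ⟨-, h2, -⟩
      exact h.1.2.1 _ ((flipAt_eq_iff _ _).1 (h1.symm.trans h2))
  · intro x hx
    simp only [τ]
    split_ifs with hc
    · exact ⟨hc, hx.2.1, hflip x hx⟩
    · exact ⟨(flip_X hx.1 hx.2.1).resolve_left hc, by simpa using hx.2.1, hflip x hx⟩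
  · intro x hx
    by_cases hc : (⟨flipAt x.f (N + 1), x.k⟩ : G) ∈ setX
    · have e1 : τ x = ⟨flipAt x.f (N + 1), x.k⟩ := if_pos hc
      rw [e1]
      simp only [τ, flipAt_flipAt]
      rw [if_pos hx.1]
    · have e1 : τ x = ⟨flipAt x.f (N + 1), -x.k⟩ := if_neg hc
      rw [e1]
      simp only [τ, flipAt_flipAt, neg_neg]
      rw [if_neg]
      intro h2
      have h0 : x.k = 0 := X_onesided (f := x.f) (k := x.k) hx.1 h2
      have h3 := (flip_X hx.1 hx.2.1).resolve_left hc
      rw [h0, neg_zero] at h3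
      rw [h0] at hc
      exact hc h3
  · intro x hx
    constructor
    · intro hfix
      have hf : flipAt x.f (N + 1) = x.f := by
        have := congrArg G.f hfix
        simp only [τ] at this
        split_ifs at this <;> exact this
      have h2 := (flipAt_eq_iff _ _).1 hf
      have hk : x.k = ell (N + 1) := (X_two hx.1 h2).symm
      obtain ⟨n, hn, -, hn2⟩ := X_first hx.1 (by rw [hk]; intro h0; rw [h0] at hM2; simp at hM2)
      have hnN : N + 1 = n + 1 := ell_injective (hn2 _ h2)
      have hnN' : n = N := by omega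
      subst hnN'
      ext i
      · simp only [x0, f1]
        by_cases hi : i = ell (n + 1)
        · rw [hi, update_self, h2]
        rw [update_of_ne hi]
        by_cases hi2 : i = ell n
        · rw [hi2, update_self, hn.1]
        rw [update_of_ne hi2]
        by_cases hi' : 3 * 2 ^ n < |i|
        · exact hx.2.2 i hi'
        by_contra hd
        have hl : ∃ m, i = ell m := by
          by_cases h0 : x.f i = 0
          · exact h.1.1 i (by rw [← h0]; exact Ne.symm hd)
          · exact X_supp hx.1 h0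
        obtain ⟨m, rfl⟩ := hl
        have hm : m < n := by
          have : m ≠ n + 1 := fun he => hi (by rw [he])
          have : m ≠ n := fun he => hi2 (by rw [he])
          rcases lamp_gap n m with ⟨h5, -⟩ | ⟨-, h5⟩ <;> omega
        exact hd (by rw [hn.2 m hm, h.2.1 m (by omega)])
      · exact hk
    · rintro rfl
      have hf : flipAt x0.f (N + 1) = x0.f := (flipAt_eq_iff _ _).2 (by simp [x0])
      simp only [τ, hf]
      rw [if_pos hx0X]

theorem rel_outer (hR : R < 2 ^ N) (hX : ∀ x ∈ setX, ψ x ∈ setX)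
    (hinv : ∀ x ∈ setX, ψ (ψ x) = x) (hne : ∀ x ∈ setX, ψ x ≠ x)
    {f : ℤ → ZMod 3} (h : Base ψ N R f) {n : ℕ} (hn : First f n) :
    par ψ N (flipAt f (n + 1)) + par ψ N f = 1 := by
  classical
  have hpos : (0 : ℤ) < 2 ^ N := by positivity
  have hnN : N + 1 ≤ n := le_first hn h.2.1
  have h4 : 4 * 2 ^ N ≤ |ell (n + 1)| := by
    rcases lamp_gap N (n + 1) with ⟨h, -⟩ | ⟨-, h⟩
    · omega
    · exact h
  let S : Set G := {x | x ∈ setX ∧ 3 * 2 ^ N < |x.k| ∧ ∀ i, i ≠ ell (n + 1) → x.f i = f i}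
  have hfirst : ∀ x ∈ S, First x.f n := fun x hx =>
    hn.congr fun m hm => hx.2.2 _ fun he => by have := ell_injective he; omega
  have hstruct : ∀ x ∈ S, x.k ∈ Set.uIcc 0 (ell (n + 1)) ∧ ∀ i, x.f i = 2 → i = ell (n + 1) := by
    intro x hx
    obtain ⟨n', hn', h1, h2⟩ := X_first hx.1
      (by intro h0; have := hx.2.1; rw [h0] at this; simp at this; omega)
    have : n = n' := (hfirst x hx).unique hn'
    subst this
    exact ⟨h1, h2⟩
  have hS : S.Finite := by
    refine (finite_box f |ell (n + 1)|).subset fun x hx => ⟨?_, fun i hi => hx.2.2 i ?_⟩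
    · have := (hstruct x hx).1
      rw [Set.mem_uIcc] at this
      rcases abs_cases (ell (n + 1)) with h6 | h6 <;> rcases abs_cases x.k with h7 | h7 <;> omega
    · rintro rfl; exact lt_irrefl _ hi
  let τ : G → G := fun x => ⟨flipAt x.f (n + 1), x.k⟩
  let x0 : G := ⟨update f (ell (n + 1)) 2, ell (n + 1)⟩
  have hx0X : x0 ∈ setX := mark_top h.1 hn
  have hx0 : x0 ∈ S := by
    refine ⟨hx0X, by simp only [x0]; omega, fun i hi => ?_⟩
    simp only [x0]
    rw [update_of_ne hi]
  have hb := odd_boundary S hS τ ψ x0 hx0 ?_ ?_ ?_ (fun x hx => hinv x hx.1)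
    (fun x hx => hne x hx.1)
  · have hE : {x | x ∈ S ∧ ψ x ∉ S} = crossOut ψ N (flipAt f (n + 1)) ∪ crossOut ψ N f := by
      ext x
      constructor
      · rintro ⟨hxS, hy⟩
        obtain ⟨hx, hk, hf⟩ := id hxS
        have hc : Close R x (ψ x) := by
          refine h.2.2 x hx ((Set.finite_singleton (ell (n + 1))).subset fun i hi => ?_)
          by_contra hi'
          exact hi (hf i hi')
        have hsmall : |(ψ x).k| ≤ 3 * 2 ^ N := by
          by_contra hlt
          refine hy ⟨hX x hx, not_le.1 hlt, fun i hi => ?_⟩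
          rw [← hf i hi]
          exact (key hR hx (hX x hx) hc hk (not_le.1 hlt) (hfirst x hxS) i hi).symm
        obtain ⟨-, -, hpx, -⟩ := cross hR (hX x hx) hx hc.symm hsmall hk
        rcases eq_or_flip h.1 hpx.1 (n + 1) hf with h1 | h1
        · exact Or.inr ⟨hx, h1, hk, hsmall⟩
        · exact Or.inl ⟨hx, h1, hk, hsmall⟩
      · rintro (⟨hx, hf, hk, hs⟩ | ⟨hx, hf, hk, hs⟩)
        · refine ⟨⟨hx, hk, fun i hi => ?_⟩, fun hy => absurd hy.2.1 (not_lt.2 hs)⟩
          rw [hf, flipAt_of_ne _ hi]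
        · exact ⟨⟨hx, hk, fun i _ => by rw [hf]⟩, fun hy => absurd hy.2.1 (not_lt.2 hs)⟩
    have hfl := h.flipAt (j := n + 1) (by omega)
    rw [hE, Set.ncard_union_eq _ _ _, crossOut_ncard hR hX hinv h,
      crossOut_ncard hR hX hinv hfl] at hb
    · simpa [par] using hb
    · rw [Set.disjoint_left]
      rintro x ⟨-, h1, -⟩ ⟨-, h2, -⟩
      exact h.1.2.1 _ ((flipAt_eq_iff _ _).1 (h1.symm.trans h2))
    · rw [crossOut_eq hR hX hinv hfl]; exact (crossIn_finite _).image _
    · rw [crossOut_eq hR hX hinv h]; exact (crossIn_finite _).image _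
  · intro x hx
    refine ⟨?_, hx.2.1, fun i hi => ?_⟩
    · rcases hx.1 with hp | hm
      · exact Or.inl ⟨hp.1.flipAt _, n, (hfirst x hx).flipAt (Nat.lt_succ_self n),
          (hstruct x hx).1⟩
      · have h2 := (hstruct x hx).2 _ hm.1
        have : flipAt x.f (n + 1) = x.f := (flipAt_eq_iff _ _).2 (by rw [← h2]; exact hm.1)
        simp only [τ, this]
        exact Or.inr hm
    · simp only [τ]
      rw [flipAt_of_ne _ hi]; exact hx.2.2 i hi
  · intro x _
    simp only [τ, flipAt_flipAt]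
  · intro x hx
    constructor
    · intro hfix
      have h2 := (flipAt_eq_iff _ _).1 (congrArg G.f hfix)
      ext i
      · simp only [x0]
        by_cases hi : i = ell (n + 1)
        · rw [hi, update_self, h2]
        · rw [update_of_ne hi]; exact hx.2.2 i hi
      · exact (X_two hx.1 h2).symm
    · rintro rfl
      have hf : flipAt x0.f (n + 1) = x0.f := (flipAt_eq_iff _ _).2 (by simp [x0])
      simp only [τ, hf]

theorem rel_all (hR : R < 2 ^ N) (hX : ∀ x ∈ setX, ψ x ∈ setX)
    (hinv : ∀ x ∈ setX, ψ (ψ x) = x) (hne : ∀ x ∈ setX, ψ x ≠ x) (j : ℕ) :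
    N + 1 ≤ j → ∀ f, Base ψ N R f → par ψ N (flipAt f j) + par ψ N f = 1 := by
  induction j using Nat.strong_induction_on with
  | _ j ih =>
    intro hj
    rcases hj.eq_or_lt with rfl | hlt
    · intro f hf; exact rel_inner hR hX hinv hne hf
    obtain ⟨n, rfl⟩ : ∃ n, j = n + 1 := ⟨j - 1, by omega⟩
    have step : ∀ m, N + 1 ≤ m → m ≤ n + 1 → ∀ f, Base ψ N R f →
        (∀ a, m ≤ a → a ≤ n → f (ell a) = if a = n then 1 else 0) →
        par ψ N (flipAt f (n + 1)) + par ψ N f = 1 := by
      intro m hm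
      induction m, hm using Nat.le_induction with
      | base =>
        intro _ f hf ha
        refine rel_outer hR hX hinv hne hf ⟨by rw [ha n (by omega) le_rfl, if_pos rfl], ?_⟩
        intro a han
        by_cases h1 : a < N + 1
        · exact hf.2.1 a h1
        · rw [ha a (by omega) han.le, if_neg han.ne]
      | succ m hm ihm =>
        intro hmn f hf ha
        by_cases hv : f (ell m) = if m = n then 1 else 0
        · refine ihm (by omega) f hf fun a h1 h2 => ?_
          rcases h1.eq_or_lt with rfl | h1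
          · exact hv
          · exact ha a h1 h2
        · have hf' := hf.flipAt hm
          have e1 := ihm (by omega) _ hf' fun a h1 h2 => by
            rcases h1.eq_or_lt with rfl | h1
            · rw [flipAt_self]
              have h3 := hf.1.2.1 (ell m)
              revert hv h3
              generalize f (ell m) = v
              split_ifs <;> revert v <;> decide
            · rw [flipAt_ell_of_ne _ h1.ne']
              exact ha a h1 h2
          have e2 := ih m (by omega) hm f hf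
          have e3 := ih m (by omega) hm _ (hf.flipAt (j := n + 1) (by omega))
          rw [flipAt_comm] at e1
          revert e1 e2 e3
          generalize par ψ N (flipAt (flipAt f (n + 1)) m) = a
          generalize par ψ N (flipAt f (n + 1)) = b
          generalize par ψ N (flipAt f m) = c
          generalize par ψ N f = d
          revert a b c d; decide
    intro f hf
    exact step (n + 1) (by omega) le_rfl f hf fun a h1 h2 => by omega

end

end Pool.Agent.Lib.MP_846a4c_an
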