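import Pool.Agent.Lib.MP_846a4c_an.Grp

set_option autoImplicit false

namespace Pool.Agent.Lib.MP_846a4c_an

open Function

/-- Position of lamp number `m`. -/
def ell : ℕ → ℤ
  | 0 => 0
  | (m + 1) => (-2) ^ (m + 1)

theorem ell_zero : ell 0 = 0 := rfl

theorem ell_succ (m : ℕ) : ell (m + 1) = (-2) ^ (m + 1) := rfl

theorem abs_ell_succ (m : ℕ) : |ell (m + 1)| = 2 ^ (m + 1) := by
  rw [ell_succ, abs_pow]; norm_num

theorem abs_ell {m : ℕ} (h : 0 < m) : |ell m| = 2 ^ m := by
  obtain ⟨m, rfl⟩ := Nat.exists_eq_succ_of_ne_zero h.ne'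
  exact abs_ell_succ m

theorem abs_ell_le (m : ℕ) : |ell m| ≤ 2 ^ m := by
  rcases Nat.eq_zero_or_pos m with rfl | h
  · simp [ell_zero]
  · exact (abs_ell h).le

theorem ell_succ_succ {m : ℕ} (h : 0 < m) : ell (m + 1) = -2 * ell m := by
  obtain ⟨m, rfl⟩ := Nat.exists_eq_succ_of_ne_zero h.ne'
  simp only [Nat.succ_eq_add_one, ell_succ]; ring

theorem ell_even (m : ℕ) : Even (ell m) := by
  cases m with
  | zero => simp [ell_zero]
  | succ m => rw [ell_succ, pow_succ]; exact Even.mul_left (by decide) _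

theorem two_le_abs_ell_succ (m : ℕ) : 2 ≤ |ell (m + 1)| := by
  rw [abs_ell_succ]
  calc (2 : ℤ) = 2 ^ 1 := by norm_num
    _ ≤ 2 ^ (m + 1) := pow_le_pow_right₀ (by norm_num) (by omega)

theorem ell_injective : Injective ell := by
  intro a b h
  rcases Nat.eq_zero_or_pos a with rfl | ha <;> rcases Nat.eq_zero_or_pos b with rfl | hb
  · rfl
  · have := abs_ell hb
    rw [← h, ell_zero] at this
    have h2 : (0 : ℤ) < 2 ^ b := by positivity
    simp at this
    omega
  · have := abs_ell ha
    rw [h, ell_zero] at this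
    have h2 : (0 : ℤ) < 2 ^ a := by positivity
    simp at this
    omega
  · have h1 := abs_ell ha
    have h2 := abs_ell hb
    rw [h, h2] at h1
    exact (pow_right_injective₀ (by norm_num : (0:ℤ) < 2) (by norm_num) h1).symm

theorem zmod3_cases (v : ZMod 3) : v = 0 ∨ v = 1 ∨ v = 2 := by
  revert v; decide

/-- Binary configurations supported on the lamps, with infinitely many ones. -/
def Bin (f : ℤ → ZMod 3) : Prop :=
  (∀ i, f i ≠ 0 → ∃ m, i = ell m) ∧ (∀ i, f i ≠ 2) ∧ (∀ N, ∃ m, N ≤ m ∧ f (ell m) = 1)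

/-- Lamp `n` is the first lamp that is on. -/
def First (f : ℤ → ZMod 3) (n : ℕ) : Prop := f (ell n) = 1 ∧ ∀ m < n, f (ell m) = 0

def Plain (x : G) : Prop := Bin x.f ∧ ∃ n, First x.f n ∧ x.k ∈ Set.uIcc 0 (ell (n + 1))

def IsEnd (x : G) : Prop := Bin x.f ∧ (x.k = 0 ∨ ∃ n, First x.f n ∧ x.k = ell (n + 1))

def setv (x : G) (v : ZMod 3) : G := ⟨update x.f x.k v, x.k⟩

def mv (x : G) (d : ℤ) : G := ⟨x.f, x.k + d⟩

def Mark (x : G) : Prop := x.f x.k = 2 ∧ IsEnd (setv x 0)

def setA : Set G := {x | Plain x ∧ Even x.k}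

def setB : Set G := {x | (Plain x ∧ Odd x.k) ∨ Mark x}

def setX : Set G := {x | Plain x ∨ Mark x}

@[simp] theorem setv_k (x : G) (v : ZMod 3) : (setv x v).k = x.k := rfl
@[simp] theorem setv_f (x : G) (v : ZMod 3) : (setv x v).f = update x.f x.k v := rfl
@[simp] theorem mv_k (x : G) (d : ℤ) : (mv x d).k = x.k + d := rfl
@[simp] theorem mv_f (x : G) (d : ℤ) : (mv x d).f = x.f := rfl

theorem setv_setv (x : G) (v w : ZMod 3) : setv (setv x v) w = setv x w := by
  ext i <;> simp

theorem setv_self (x : G) : setv x (x.f x.k) = x := by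
  ext i <;> simp

theorem mv_mv (x : G) (d e : ℤ) (h : d + e = 0) : mv (mv x d) e = x := by
  ext i
  · simp
  · simp; omega

theorem First.unique {f : ℤ → ZMod 3} {n n' : ℕ} (h : First f n) (h' : First f n') : n = n' := by
  rcases lt_trichotomy n n' with hl | he | hl
  · have := h'.2 n hl
    rw [h.1] at this
    exact absurd this (by decide)
  · exact he
  · have := h.2 n' hl
    rw [h'.1] at this
    exact absurd this (by decide)

theorem Bin.exists_first {f : ℤ → ZMod 3} (h : Bin f) : ∃ n, First f n := by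
  classical
  have hex : ∃ m, f (ell m) = 1 := by
    obtain ⟨m, -, hm⟩ := h.2.2 0
    exact ⟨m, hm⟩
  refine ⟨Nat.find hex, Nat.find_spec hex, fun m hm => ?_⟩
  have h1 := Nat.find_min hex hm
  have h2 := h.2.1 (ell m)
  rcases zmod3_cases (f (ell m)) with h | h | h
  · exact h
  · exact absurd h h1
  · exact absurd h h2

theorem First.congr {f f' : ℤ → ZMod 3} {n : ℕ} (h : First f n)
    (hh : ∀ m ≤ n, f' (ell m) = f (ell m)) : First f' n :=
  ⟨by rw [hh n le_rfl]; exact h.1, fun m hm => by rw [hh m hm.le]; exact h.2 m hm⟩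

theorem Bin.update {f : ℤ → ZMod 3} (h : Bin f) (j : ℕ) {v : ZMod 3} (hv : v ≠ 2) :
    Bin (update f (ell j) v) := by
  refine ⟨fun i hi => ?_, fun i => ?_, fun N => ?_⟩
  · by_cases hij : i = ell j
    · exact ⟨j, hij⟩
    · rw [update_of_ne hij] at hi
      exact h.1 i hi
  · by_cases hij : i = ell j
    · rw [hij, update_self]; exact hv
    · rw [update_of_ne hij]; exact h.2.1 i
  · obtain ⟨m, hm, hm1⟩ := h.2.2 (max N (j + 1))
    refine ⟨m, le_trans (le_max_left _ _) hm, ?_⟩
    have : ell m ≠ ell j := fun he => by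
      have := ell_injective he
      have := le_trans (le_max_right _ _) hm
      omega
    rw [update_of_ne this]; exact hm1

theorem First.update_of_lt {f : ℤ → ZMod 3} {n j : ℕ} (h : First f n) (hj : n < j) (v : ZMod 3) :
    First (update f (ell j) v) n :=
  h.congr fun m hm => update_of_ne (fun he => by have := ell_injective he; omega) _ _

theorem IsEnd.setv {x : G} (h : IsEnd x) {v : ZMod 3} (hv : v ≠ 2) : IsEnd (setv x v) := by
  rcases h with ⟨hb, h0 | ⟨n, hn, hk⟩⟩
  · refine ⟨?_, Or.inl h0⟩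
    rw [setv_f, h0, ← ell_zero]
    exact hb.update 0 hv
  · refine ⟨?_, Or.inr ⟨n, ?_, hk⟩⟩
    · rw [setv_f, hk]; exact hb.update _ hv
    · rw [setv_f, hk]; exact hn.update_of_lt (Nat.lt_succ_self n) v

theorem IsEnd.plain {x : G} (h : IsEnd x) : Plain x := by
  rcases h with ⟨hb, h0 | ⟨n, hn, hk⟩⟩
  · obtain ⟨n, hn⟩ := hb.exists_first
    exact ⟨hb, n, hn, by rw [h0]; exact Set.left_mem_uIcc⟩
  · exact ⟨hb, n, hn, by rw [hk]; exact Set.right_mem_uIcc⟩

theorem IsEnd.even {x : G} (h : IsEnd x) : Even x.k := by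
  rcases h with ⟨-, h0 | ⟨n, -, hk⟩⟩
  · rw [h0]; exact Even.zero
  · rw [hk]; exact ell_even _

theorem plain_iff {x : G} {n : ℕ} (hb : Bin x.f) (hn : First x.f n) :
    Plain x ↔ x.k ∈ Set.uIcc 0 (ell (n + 1)) := by
  constructor
  · rintro ⟨-, n', hn', hk⟩
    rw [hn.unique hn']; exact hk
  · intro hk
    exact ⟨hb, n, hn, hk⟩

theorem IsEnd.xor {x : G} (h : IsEnd x) : Plain (mv x (-1)) ↔ ¬ Plain (mv x 1) := by
  obtain ⟨n, hn⟩ := h.1.exists_first
  rw [plain_iff (x := mv x (-1)) h.1 hn, plain_iff (x := mv x 1) h.1 hn]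
  have h2 := two_le_abs_ell_succ n
  simp only [mv_k, Set.mem_uIcc]
  rcases h.2 with h0 | ⟨n', hn', hk⟩
  · rw [h0]
    rcases abs_cases (ell (n + 1)) with h3 | h3 <;> omega
  · rw [hk, ← hn.unique hn']
    rcases abs_cases (ell (n + 1)) with h3 | h3 <;> omega

theorem Plain.isEnd {x : G} (h : Plain x) {d : ℤ} (hd : d = -1 ∨ d = 1)
    (h' : ¬ Plain (mv x d)) : IsEnd x := by
  obtain ⟨hb, n, hn, hk⟩ := h
  rw [plain_iff (x := mv x d) hb hn] at h'
  refine ⟨hb, ?_⟩
  simp only [mv_k, Set.mem_uIcc] at h' hk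
  by_cases h0 : x.k = 0
  · exact Or.inl h0
  · exact Or.inr ⟨n, hn, by omega⟩

theorem Plain.mv_of_odd {x : G} (h : Plain x) (ho : Odd x.k) {d : ℤ} (hd : d = -1 ∨ d = 1) :
    Plain (mv x d) := by
  by_contra h'
  exact (Int.not_even_iff_odd.2 ho) (h.isEnd hd h').even

theorem Plain.not_mark {x : G} (h : Plain x) : ¬ Mark x := fun hm => h.1.2.1 _ hm.1

theorem Mark.isEnd {x : G} (h : Mark x) {v : ZMod 3} (hv : v ≠ 2) : IsEnd (setv x v) := by
  have := h.2.setv hv
  rwa [setv_setv] at this

theorem IsEnd.mark {x : G} (h : IsEnd x) : Mark (Pool.Agent.Lib.MP_846a4c_an.setv x 2) := by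
  refine ⟨by simp, ?_⟩
  rw [setv_setv]
  exact h.setv (by decide)

theorem disjoint_AB {x : G} (hA : x ∈ setA) : x ∉ setB := by
  rintro (⟨-, ho⟩ | hm)
  · exact (Int.not_even_iff_odd.2 ho) hA.2
  · exact hA.1.not_mark hm

theorem mem_X_iff {x : G} : x ∈ setX ↔ x ∈ setA ∨ x ∈ setB := by
  constructor
  · rintro (hp | hm)
    · rcases Int.even_or_odd x.k with he | ho
      · exact Or.inl ⟨hp, he⟩
      · exact Or.inr (Or.inl ⟨hp, ho⟩)
    · exact Or.inr (Or.inr hm)
  · rintro (h | h | h)
    · exact Or.inl h.1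
    · exact Or.inl h.1
    · exact Or.inr h

/-- The lamp move. -/
def lamp (v : ZMod 3) : G := ⟨update 0 0 v, 0⟩

/-- The cursor move. -/
def cur (d : ℤ) : G := ⟨0, d⟩

theorem cur_mul (d : ℤ) (x : G) : cur d * x = mv x d := by
  ext i
  · simp [cur]
  · simp [cur, add_comm]

theorem lamp_mul (v : ZMod 3) (x : G) : lamp (v - x.f x.k) * x = setv x v := by
  ext i
  · by_cases h : i = x.k
    · simp [lamp, h]
    · have : i - x.k ≠ 0 := sub_ne_zero.2 h
      simp [lamp, h, this]
  · simp [lamp]

theorem continuous_mv (d : ℤ) : Continuous fun x : G => mv x d := by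
  simp only [← cur_mul]
  exact continuous_const.mul continuous_id

theorem continuous_val : Continuous fun x : G => x.f x.k :=
  continuous_f_at continuous_id continuous_k

theorem continuous_setv (v : ZMod 3) : Continuous fun x : G => setv x v := by
  simp only [← lamp_mul]
  refine Continuous.mul ?_ continuous_id
  exact (continuous_of_discreteTopology (f := fun w : ZMod 3 => lamp (v - w))).comp continuous_val

theorem measurable_prop_of_continuous {Y : Type*} [TopologicalSpace Y] [DiscreteTopology Y]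
    {u : G → Y} (hu : Continuous u) (p : Y → Prop) : Measurable fun x => p (u x) := by
  rw [← measurableSet_setOfPred]
  exact ((isOpen_discrete {y | p y}).preimage hu).measurableSet

theorem measurable_f (i : ℤ) (p : ZMod 3 → Prop) : Measurable fun x : G => p (x.f i) :=
  measurable_prop_of_continuous (continuous_f_at continuous_id continuous_const) p

theorem measurable_k (p : ℤ → Prop) : Measurable fun x : G => p x.k :=
  measurable_prop_of_continuous continuous_k p

theorem measurable_bin : Measurable fun x : G => Bin x.f := by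
  unfold Bin
  refine Measurable.and ?_ (Measurable.and ?_ ?_)
  · exact Measurable.forall fun i => measurable_f i (fun v => v ≠ 0 → ∃ m, i = ell m)
  · exact Measurable.forall fun i => measurable_f i (fun v => v ≠ 2)
  · exact Measurable.forall fun N => Measurable.exists fun m =>
      measurable_f (ell m) (fun v => N ≤ m ∧ v = 1)

theorem measurable_first (n : ℕ) : Measurable fun x : G => First x.f n := by
  unfold First
  refine Measurable.and (measurable_f _ (fun v => v = 1)) ?_
  exact Measurable.forall fun m => measurable_f (ell m) (fun v => m < n → v = 0)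

theorem measurable_plain : Measurable Plain := by
  unfold Plain
  refine Measurable.and measurable_bin (Measurable.exists fun n => ?_)
  exact Measurable.and (measurable_first n) (measurable_k (fun k => k ∈ Set.uIcc 0 (ell (n + 1))))

theorem measurable_isEnd : Measurable IsEnd := by
  unfold IsEnd
  refine Measurable.and measurable_bin (Measurable.or (measurable_k (fun k => k = 0)) ?_)
  exact Measurable.exists fun n =>
    Measurable.and (measurable_first n) (measurable_k (fun k => k = ell (n + 1)))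

theorem measurable_mark : Measurable Mark := by
  unfold Mark
  exact Measurable.and (measurable_prop_of_continuous continuous_val (fun v => v = 2))
    (measurable_isEnd.comp (continuous_setv 0).measurable)

theorem measurableSet_A : MeasurableSet setA :=
  measurableSet_setOfPred.2 (Measurable.and measurable_plain (measurable_k (fun k => Even k)))

end Pool.Agent.Lib.MP_846a4c_an
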