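import Pool.Agent.Lib.MP_846a4c_an.Sets

set_option autoImplicit false

namespace Pool.Agent.Lib.MP_846a4c_an

open Function

theorem even_ncard_of_invol {α : Type*} (S : Set α) (hS : S.Finite) (τ : α → α)
    (h1 : ∀ x ∈ S, τ x ∈ S) (h2 : ∀ x ∈ S, τ (τ x) = x) (h3 : ∀ x ∈ S, τ x ≠ x) :
    (S.ncard : ZMod 2) = 0 := by
  rw [Set.ncard_eq_toFinset_card S hS]
  have := Finset.sum_involution (s := hS.toFinset) (f := fun _ => (1 : ZMod 2))
    (fun a _ => τ a) (fun _ _ => by decide) (fun a ha _ => h3 a (hS.mem_toFinset.1 ha))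
    (fun a ha => hS.mem_toFinset.2 (h1 a (hS.mem_toFinset.1 ha)))
    (fun a ha => h2 a (hS.mem_toFinset.1 ha))
  simpa using this

theorem odd_boundary {α : Type*} (S : Set α) (hS : S.Finite) (τ ψ : α → α) (x0 : α)
    (hx0 : x0 ∈ S) (hτ1 : ∀ x ∈ S, τ x ∈ S) (hτ2 : ∀ x ∈ S, τ (τ x) = x)
    (hτ3 : ∀ x ∈ S, τ x = x ↔ x = x0) (hψ2 : ∀ x ∈ S, ψ (ψ x) = x) (hψ3 : ∀ x ∈ S, ψ x ≠ x) :
    ({x | x ∈ S ∧ ψ x ∉ S}.ncard : ZMod 2) = 1 := by
  have e1 : ((S \ {x0}).ncard : ZMod 2) = 0 := by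
    refine even_ncard_of_invol _ (hS.subset Set.sdiff_subset) τ ?_ ?_ ?_
    · rintro x ⟨hx, hx'⟩
      refine ⟨hτ1 x hx, fun h => hx' ?_⟩
      have h' : τ x = x0 := h
      have := hτ2 x hx
      rw [h', (hτ3 x0 hx0).2 rfl] at this
      exact this.symm
    · rintro x ⟨hx, -⟩; exact hτ2 x hx
    · rintro x ⟨hx, hx'⟩ h; exact hx' ((hτ3 x hx).1 h)
  have e2 : ({x | x ∈ S ∧ ψ x ∈ S}.ncard : ZMod 2) = 0 := by
    refine even_ncard_of_invol _ (hS.subset fun x hx => hx.1) ψ ?_ ?_ ?_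
    · rintro x ⟨hx, hx'⟩
      exact ⟨hx', by rw [hψ2 x hx]; exact hx⟩
    · rintro x ⟨hx, -⟩; exact hψ2 x hx
    · rintro x ⟨hx, -⟩; exact hψ3 x hx
  have e3 : (S \ {x0}).ncard + 1 = S.ncard := Set.ncard_sdiff_singleton_add_one hx0 hS
  have e4 : S.ncard = {x | x ∈ S ∧ ψ x ∈ S}.ncard + {x | x ∈ S ∧ ψ x ∉ S}.ncard := by
    rw [← Set.ncard_union_eq _ (hS.subset fun x hx => hx.1) (hS.subset fun x hx => hx.1)]
    · congr 1
      ext x
      simp only [Set.mem_union, Set.mem_ofPred_eq]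
      tauto
    · rw [Set.disjoint_left]
      rintro x ⟨-, h⟩ ⟨-, h'⟩
      exact h' h
  have e5 : (((S \ {x0}).ncard + 1 : ℕ) : ZMod 2) =
      (({x | x ∈ S ∧ ψ x ∈ S}.ncard + {x | x ∈ S ∧ ψ x ∉ S}.ncard : ℕ) : ZMod 2) := by
    rw [e3, e4]
  push_cast at e5
  rw [e1, e2] at e5
  simpa using e5.symm

theorem finite_box (f : ℤ → ZMod 3) (c : ℤ) :
    {x : G | |x.k| ≤ c ∧ ∀ i, c < |i| → x.f i = f i}.Finite := by
  classical
  refine Set.Finite.of_finite_image (f := fun x : G =>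
    ((fun i : Finset.Icc (-c) c => x.f i), x.k)) ?_ ?_
  · refine ((Set.finite_univ (α := Finset.Icc (-c) c → ZMod 3)).prod
      (Set.finite_Icc (-c) c)).subset ?_
    rintro _ ⟨x, hx, rfl⟩
    exact ⟨Set.mem_univ _, abs_le.1 hx.1⟩
  · intro x hx y hy h
    simp only [Prod.mk.injEq] at h
    ext i
    · by_cases hi : c < |i|
      · rw [hx.2 i hi, hy.2 i hi]
      · have : i ∈ Finset.Icc (-c) c := Finset.mem_Icc.2 (abs_le.1 (not_lt.1 hi))
        exact congrFun h.1 ⟨i, this⟩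
    · exact h.2

theorem X_supp {x : G} (hx : x ∈ setX) {i : ℤ} (hi : x.f i ≠ 0) : ∃ m, i = ell m := by
  rcases hx with hp | hm
  · exact hp.1.1 i hi
  · by_cases h : i = x.k
    · have := (hm.isEnd (v := 1) (by decide)).1.1 x.k (by simp)
      rwa [h]
    · refine hm.2.1.1 i ?_
      rwa [setv_f, update_of_ne h]

theorem X_two {x : G} (hx : x ∈ setX) {i : ℤ} (hi : x.f i = 2) : i = x.k := by
  rcases hx with hp | hm
  · exact absurd hi (hp.1.2.1 i)
  · by_contra h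
    refine hm.2.1.2.1 i ?_
    rwa [setv_f, update_of_ne h]

theorem X_first {x : G} (hx : x ∈ setX) (hk : x.k ≠ 0) :
    ∃ n, First x.f n ∧ x.k ∈ Set.uIcc 0 (ell (n + 1)) ∧ ∀ i, x.f i = 2 → i = ell (n + 1) := by
  rcases hx with hp | hm
  · obtain ⟨hb, n, hn, hkn⟩ := hp
    exact ⟨n, hn, hkn, fun i hi => absurd hi (hb.2.1 i)⟩
  · rcases hm.2.2 with h0 | ⟨n, hn, hkn⟩
    · exact absurd h0 hk
    · have hkn' : x.k = ell (n + 1) := hkn
      refine ⟨n, ?_, by rw [hkn']; exact Set.right_mem_uIcc, fun i hi => ?_⟩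
      · refine hn.congr fun m hmn => ?_
        rw [setv_f, update_of_ne]
        rw [hkn']
        intro he
        have := ell_injective he
        omega
      · rw [X_two (Or.inr hm) hi, hkn']

theorem X_plain {x : G} (hx : x ∈ setX) (hk : ∀ m, x.k ≠ ell m) : Plain x := by
  rcases hx with hp | hm
  · exact hp
  · obtain ⟨m, hm'⟩ := X_supp (Or.inr hm) (i := x.k) (by rw [hm.1]; decide)
    exact absurd hm' (hk m)

theorem X_onesided {f : ℤ → ZMod 3} {k : ℤ} (h1 : (⟨f, k⟩ : G) ∈ setX)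
    (h2 : (⟨f, -k⟩ : G) ∈ setX) : k = 0 := by
  by_contra hk
  obtain ⟨n, hn, hkn, -⟩ := X_first h1 hk
  obtain ⟨n', hn', hkn', -⟩ := X_first h2 (neg_ne_zero.2 hk)
  have : n = n' := hn.unique hn'
  subst this
  simp only [Set.mem_uIcc] at hkn hkn'
  omega

theorem lamp_gap (N m : ℕ) :
    (m ≤ N + 1 ∧ |ell m| ≤ 2 * 2 ^ N) ∨ (N + 1 < m ∧ 4 * 2 ^ N ≤ |ell m|) := by
  rcases le_or_gt m (N + 1) with h | h
  · refine Or.inl ⟨h, (abs_ell_le m).trans ?_⟩
    calc (2 : ℤ) ^ m ≤ 2 ^ (N + 1) := pow_le_pow_right₀ (by norm_num) h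
      _ = 2 * 2 ^ N := by ring
  · refine Or.inr ⟨h, ?_⟩
    rw [abs_ell (by omega)]
    calc (4 : ℤ) * 2 ^ N = 2 ^ (N + 2) := by ring
      _ ≤ 2 ^ m := pow_le_pow_right₀ (by norm_num) h

theorem lamp_double {a b : ℕ} (ha : 0 < a) (hab : a < b) : 2 * |ell a| ≤ |ell b| := by
  rw [abs_ell ha, abs_ell (by omega)]
  calc (2 : ℤ) * 2 ^ a = 2 ^ (a + 1) := by ring
    _ ≤ 2 ^ b := pow_le_pow_right₀ (by norm_num) hab

/-- Two points differ by a move of size at most `R`. -/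
def Close (R : ℤ) (x y : G) : Prop :=
  |x.k - y.k| ≤ R ∧ ∀ i, x.f i ≠ y.f i → |i - x.k| ≤ R ∧ |i - y.k| ≤ R

theorem Close.symm {R : ℤ} {x y : G} (h : Close R x y) : Close R y x :=
  ⟨by rw [abs_sub_comm]; exact h.1, fun i hi => (h.2 i (Ne.symm hi)).symm⟩

theorem diff_lamp {x y : G} (hx : x ∈ setX) (hy : y ∈ setX) {i : ℤ} (hi : x.f i ≠ y.f i) :
    ∃ m, i = ell m := by
  by_cases h : x.f i = 0
  · exact X_supp hy (by rw [← h]; exact Ne.symm hi)
  · exact X_supp hx h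

theorem cross {N : ℕ} {R : ℤ} (hR : R < 2 ^ N) {x y : G} (hx : x ∈ setX) (hy : y ∈ setX)
    (h : Close R x y) (h1 : |x.k| ≤ 3 * 2 ^ N) (h2 : 3 * 2 ^ N < |y.k|) :
    x.f = y.f ∧ Plain x ∧ Plain y ∧ 2 * 2 ^ N < |x.k| := by
  have hd := abs_le.1 h.1
  refine ⟨?_, X_plain hx fun m hm => ?_, X_plain hy fun m hm => ?_, ?_⟩
  · funext i
    by_contra hi
    obtain ⟨m, rfl⟩ := diff_lamp hx hy hi
    obtain ⟨h3, h4⟩ := h.2 _ hi
    have h3 := abs_le.1 h3
    have h4 := abs_le.1 h4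
    rcases lamp_gap N m with ⟨-, h5⟩ | ⟨-, h5⟩ <;>
      rcases abs_cases (ell m) with h6 | h6 <;> rcases abs_cases x.k with h7 | h7 <;>
      rcases abs_cases y.k with h8 | h8 <;> omega
  · rw [hm] at h1 hd
    rcases lamp_gap N m with ⟨-, h5⟩ | ⟨-, h5⟩ <;>
      rcases abs_cases (ell m) with h6 | h6 <;>
      rcases abs_cases y.k with h8 | h8 <;> omega
  · rw [hm] at h2 hd
    rcases lamp_gap N m with ⟨-, h5⟩ | ⟨-, h5⟩ <;>
      rcases abs_cases (ell m) with h6 | h6 <;>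
      rcases abs_cases x.k with h8 | h8 <;> omega
  · rcases abs_cases x.k with h7 | h7 <;> rcases abs_cases y.k with h8 | h8 <;> omega

theorem key_aux {N : ℕ} {R : ℤ} (hR : R < 2 ^ N) {x : G} {n m : ℕ} (hm : N + 1 < m)
    (hk : x.k ∈ Set.uIcc 0 (ell (n + 1))) (hc : |ell m - x.k| ≤ R) : m ≤ n + 1 ∧ n ≠ m := by
  have hc := abs_le.1 hc
  have h4 : 4 * 2 ^ N ≤ |ell m| := by
    rcases lamp_gap N m with ⟨h, -⟩ | ⟨-, h⟩
    · omega
    · exact h
  rw [Set.mem_uIcc] at hk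
  constructor
  · by_contra h
    have := lamp_double (Nat.succ_pos n) (not_le.1 h)
    simp only [Nat.succ_eq_add_one] at this
    rcases abs_cases (ell m) with h6 | h6 <;> rcases abs_cases (ell (n + 1)) with h7 | h7 <;> omega
  · rintro rfl
    rw [ell_succ_succ (by omega)] at hk
    rcases abs_cases (ell n) with h6 | h6 <;> omega

theorem key {N : ℕ} {R : ℤ} (hR : R < 2 ^ N) {x y : G} (hx : x ∈ setX) (hy : y ∈ setX)
    (h : Close R x y) (h1 : 3 * 2 ^ N < |x.k|) (h2 : 3 * 2 ^ N < |y.k|) {n : ℕ}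
    (hn : First x.f n) (i : ℤ) (hi : i ≠ ell (n + 1)) : x.f i = y.f i := by
  have hpos : (0 : ℤ) < 2 ^ N := by positivity
  have hx0 : x.k ≠ 0 := by intro h0; rw [h0] at h1; simp at h1; omega
  have hy0 : y.k ≠ 0 := by intro h0; rw [h0] at h2; simp at h2; omega
  obtain ⟨n1, hn1, hk1, -⟩ := X_first hx hx0
  obtain ⟨n2, hn2, hk2, -⟩ := X_first hy hy0
  have : n = n1 := hn.unique hn1
  subst this
  have big : ∀ m, x.f (ell m) ≠ y.f (ell m) → N + 1 < m := by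
    intro m hm
    have h3 := abs_le.1 (h.2 _ hm).1
    rcases lamp_gap N m with ⟨-, h5⟩ | ⟨h5, -⟩
    · rcases abs_cases (ell m) with h6 | h6 <;> rcases abs_cases x.k with h7 | h7 <;> omega
    · exact h5
  by_contra hne
  obtain ⟨m, rfl⟩ := diff_lamp hx hy hne
  have hm := big m hne
  have low : ∀ a, a < m → x.f (ell a) = y.f (ell a) := by
    intro a ha
    by_contra hne'
    have ha' := big a hne'
    have h3 := abs_le.1 (h.2 _ hne').1
    have h4 := abs_le.1 (h.2 _ hne).1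
    have h5 := lamp_double (by omega : 0 < a) ha
    rcases lamp_gap N a with ⟨h6, -⟩ | ⟨-, h6⟩
    · omega
    · rcases abs_cases (ell m) with h7 | h7 <;> rcases abs_cases (ell a) with h8 | h8 <;> omega
  obtain ⟨a1, a2⟩ := key_aux hR hm hk1 (h.2 _ hne).1
  obtain ⟨b1, b2⟩ := key_aux hR hm hk2 (h.2 _ hne).2
  have hmn : m ≠ n + 1 := fun he => hi (by rw [he])
  have hlt : m < n := by omega
  by_cases hb : n2 < m
  · have : First x.f n2 := hn2.congr fun a ha => low a (by omega)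
    have := hn.unique this
    omega
  · have hlt2 : m < n2 := by omega
    exact hne (by rw [hn.2 m hlt, hn2.2 m hlt2])

end Pool.Agent.Lib.MP_846a4c_an
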